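import Pool.Agent.Q293.RB.Assemble
import Pool.Agent.Q293.RB.Low
import Pool.Agent.Q293.RB.Gtt
import Pool.Agent.Q293.RB.App
import Pool.Agent.Q293.RB.Dec
import Pool.Agent.Q293.RB.Rep
import Pool.Agent.Q293.RB.Spl
import Pool.Agent.Q293.RB.Two

/-!
# MP_dd6cbd_pr: the maximum divergence from `RBM_{3,1}`

The maximum over all distributions `p` on three bits of the Kullback-Leibler divergence from `p` to
the restricted Boltzmann machine with three visible units and one hidden unit is
`(3/4) log (1 + 2/√3)`, and it is attained at the uniform distribution on the four strings of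
even parity.
-/

set_option autoImplicit false

open Finset Pool.Agent.Q293.RB

namespace Pool.Agent.Results.MP_dd6cbd_pr.MaxDivergence

/-- The maximum divergence from `RBM_{3,1}` equals `(3/4) log (1 + 2/√3)` (natural logarithm).
The infimum over the model exists for every distribution `p`; the largest one is
`(3/4) log (1 + 2/√3)`; it is attained at the uniform distribution on the even strings. -/
theorem result :
    IsGreatest {d : ℝ | ∃ p : (Fin 3 → Bool) → ℝ, IsDist p ∧
        IsGLB {e : ℝ | ∃ q ∈ RBM 3 1, e = KL p q} d} (3 / 4 * Real.log (1 + 2 / Real.sqrt 3)) ∧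
      (∀ p : (Fin 3 → Bool) → ℝ, IsDist p →
        ∃ d : ℝ, IsGLB {e : ℝ | ∃ q ∈ RBM 3 1, e = KL p q} d) ∧
      IsDist par ∧
      IsGLB {e : ℝ | ∃ q ∈ RBM 3 1, e = KL par q} (3 / 4 * Real.log (1 + 2 / Real.sqrt 3)) :=
  final low merge two gtt del dec rep app spl

end Pool.Agent.Results.MP_dd6cbd_pr.MaxDivergence
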